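import Pool.Agent.Helper11.SY.Ja

/-!
# MP_e1889a_ag: stable degenerations of symplectic singularities

`R` is the completed local ring of a symplectic singularity `x ∈ X` of dimension `2 n`, `w` the minimizer
of the normalized volume, `A` its log discrepancy.

Meaning for Q1. `ω ^ n` generates the canonical module, so `w (ω ^ n) = A`, and the degeneration of `ω` is
a symplectic form on `X_0 = Spec (gr_w R)` iff `w (ω) = A / n` iff `w {f, g} ≥ w f + w g - A / n` for all
`f, g ∈ R` (`OrderGe`); the bracket of degree `- A / n` on `gr_w R` is then inverse to it.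

The minimizer is unique, hence invariant under the automorphisms of the germ, in particular under the
flows of Hamiltonian vector fields vanishing at `x`. This gives (1), which is the inequality whenever one
of the functions has valuation at most `A / n`. For `n = 1` the condition `LowRank` is empty. The condition
`LowIndep` holds if `{m, m} ⊂ m` and the elements of `gr_w R` of degree at most `A / n` generate a subring
of dimension at least `2 n - 1`.
-/

set_option autoImplicit false

namespace Pool.Agent.Helper88.Old.LowHamiltonians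

open IsLocalRing Pool.Agent.Helper11.SY

theorem result (R : Type) [CommRing R] [Algebra ℂ R] [IsDomain R] [IsLocalRing R]
    [IsNoetherianRing R] [IsAdicComplete (maximalIdeal R) R]
    (hres : ∀ f : R, ∃ c : ℂ, f - algebraMap ℂ R c ∈ maximalIdeal R)
    (n : ℕ) (hn : 1 ≤ n) (hdim : ringKrullDim R = ((2 * n : ℕ) : WithBot ℕ∞))
    (S : Symp R n) (w : CVal R) (A : ℝ) (hw : IsMinimizer S w A) :
    -- (1) Hamiltonian vector fields vanishing at the point do not decrease the minimizer
    (∀ f, Fixes S f → ∀ g, w.v g ≤ w.v (S.br f g)) ∧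
    -- (2) `2 n - 2` functions of valuation at most `A / n` with nondegenerate brackets
    (LowRank S w (A / n) → OrderGe S w (A / n)) ∧
    -- (3) `2 n - 1` functions of valuation at most `A / n` with independent initial forms
    (LowIndep S w A (A / n) → OrderGe S w (A / n)) ∧
    -- (4) generation in degrees at most `A / n`
    ((∀ f ∈ maximalIdeal R, Fixes S f) → LowGen w (A / n) → OrderGe S w (A / n)) ∧
    -- (5) a consequence of the inequality
    (OrderGe S w (A / n) → ∀ f ∈ maximalIdeal R, Fixes S f → ((A / n : ℝ) : WithTop ℝ) ≤ w.v f) ∧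
    -- (6) the opposite inequality always holds somewhere
    (∃ f g : R, S.br f g ≠ 0 ∧ w.v (S.br f g) + ((A / n : ℝ) : WithTop ℝ) ≤ w.v f + w.v g) := by
  have hm : ∃ f ∈ maximalIdeal R, f ≠ 0 := by
    by_contra hcon
    push Not at hcon
    have h1 : maximalIdeal R = ⊥ := by
      rw [eq_bot_iff]
      intro f hf
      exact hcon f hf
    have h2 : IsField R := isField_iff_maximalIdeal_eq.2 h1
    rw [ringKrullDim_eq_zero_of_isField h2] at hdim
    have h3 : ((0 : ℕ) : WithBot ℕ∞) = ((2 * n : ℕ) : WithBot ℕ∞) := hdim
    have h4 : (0 : ℕ) = 2 * n := by exact_mod_cast h3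
    omega
  have h1 : ∀ f, Fixes S f → ∀ g, w.v g ≤ w.v (S.br f g) := fun f hf g =>
    der_val hres w (fun σ f => inv_aut hw hm σ f) (S.br f) hf g
  refine ⟨h1, ?_, ?_, ?_, ?_, order_le hn hw.disc hm⟩
  · rintro ⟨F, hF, hdet0, hdet⟩ f g
    exact good_all hn hw.disc F (fun i g => good_of_small (h1 _ (hF i).1) (hF i).2 g) hdet0 hdet f g
  · rintro ⟨F, j, hF, hth, hval⟩ f g
    have hgood : ∀ i, i ≠ j → ∀ g, Good S w (A / n) (F i) g := fun i hi g =>
      good_of_small (h1 _ (hF i hi).1) (hF i hi).2 g
    obtain ⟨e, hej, hdet0, hdet⟩ := rank_of_indep hn F j hgood hth hval.symm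
    exact good_all hn hw.disc (fun i => F (e i)) (fun i g => hgood _ (hej i) g) hdet0 hdet f g
  · intro hfix hgen
    exact good_of_gen hres (fun f hf => h1 f (hfix f hf)) hgen
  · intro hall f hf hfix
    exact large_of_good hn hw.disc hall hf (h1 f hfix)

end Pool.Agent.Helper88.Old.LowHamiltonians
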